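import Pool.Agent.H98.RH.Gd
import Mathlib.FieldTheory.Minpoly.Field
import Mathlib.FieldTheory.Separable
import Mathlib.Algebra.Polynomial.Lifts

/-!
# H73 GE, Gza: the data GD from a purely transcendental subfield and a separable primitive element
-/

set_option autoImplicit false

namespace Pool.Agent.H73.GE

open Polynomial Pool.Agent.H54.TT Pool.Agent.H98.RH

section

variable {σ K : Type} [Field K]

/-- the value of an integer polynomial -/
noncomputable def ph (z : σ → K) : MvPolynomial σ ℤ →+* K := MvPolynomial.eval₂Hom (Int.castRingHom K) z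

theorem e2_ph (z : σ → K) (θ : K) (h : (MvPolynomial σ ℤ)[X]) : e2 z θ h = (h.map (ph z)).eval θ := by
  rw [Polynomial.eval_map]
  rfl

theorem e2_C (z : σ → K) (θ : K) (a : MvPolynomial σ ℤ) : e2 z θ (C a) = ph z a := by
  rw [e2_ph, map_C, eval_C]

variable {L : Type} [Field L] [Algebra L K]

/-- common denominators -/
theorem denz (z : σ → K) (hL : ∀ a : L, ∃ r s : MvPolynomial σ ℤ, ph z s ≠ 0 ∧ algebraMap L K a * ph z s = ph z r)
    (q : L[X]) : ∃ (D : MvPolynomial σ ℤ) (Q : (MvPolynomial σ ℤ)[X]), ph z D ≠ 0 ∧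
      Q.map (ph z) = C (ph z D) * q.map (algebraMap L K) := by
  induction q using Polynomial.induction_on' with
  | add p q hp hq =>
    obtain ⟨D1, Q1, h1, h1'⟩ := hp
    obtain ⟨D2, Q2, h2, h2'⟩ := hq
    refine ⟨D1 * D2, C D2 * Q1 + C D1 * Q2, ?_, ?_⟩
    · rw [map_mul]
      exact mul_ne_zero h1 h2
    · rw [Polynomial.map_add, Polynomial.map_mul, Polynomial.map_mul, map_C, map_C, h1', h2',
        Polynomial.map_add, map_mul, C_mul]
      ring
  | monomial n a =>
    obtain ⟨r, s, hs, hrs⟩ := hL a
    refine ⟨s, monomial n r, hs, ?_⟩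
    rw [map_monomial, map_monomial, C_mul_monomial, ← hrs, mul_comm]

/-- truncation of coefficients -/
theorem trunc (z : σ → K) (D : MvPolynomial σ ℤ) (Q : (MvPolynomial σ ℤ)[X]) (q : K[X])
    (h : Q.map (ph z) = C (ph z D) * q) :
    ∃ g : (MvPolynomial σ ℤ)[X], g.map (ph z) = C (ph z D) * q ∧ g.natDegree ≤ q.natDegree := by
  refine ⟨∑ i ∈ Finset.range (q.natDegree + 1), monomial i (Q.coeff i), ?_, ?_⟩
  · rw [← h]
    ext i
    rw [coeff_map, coeff_map, finsetSum_coeff]
    simp only [coeff_monomial, Finset.sum_ite_eq', Finset.mem_range]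
    split_ifs with h1
    · rfl
    · rw [map_zero, ← coeff_map, h, coeff_C_mul, coeff_eq_zero_of_natDegree_lt (by omega), mul_zero]
  · rw [natDegree_le_iff_coeff_eq_zero]
    intro i hi
    rw [finsetSum_coeff]
    simp only [coeff_monomial, Finset.sum_ite_eq', Finset.mem_range]
    rw [if_neg (by omega)]

/-- pseudo-division -/
theorem pseudo {A R : Type} [CommRing A] [CommRing R] (E : A[X] →+* R) (P : A[X] → Prop) (g : A[X])
    (hg0 : 0 < g.natDegree) (hg : E g = 0)
    (hP : ∀ h, P h → ∀ a b : A, ∀ m : ℕ, P (C a * h - C b * X ^ m * g))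
    (hmin : ∀ h, P h → h.natDegree < g.natDegree → E h = 0) (h : A[X]) (hh : P h) :
    ∃ e : ℕ, (E (C g.leadingCoeff)) ^ e * E h = 0 := by
  have key : ∀ n : ℕ, ∀ h : A[X], h.natDegree < n → P h → ∃ e : ℕ, (E (C g.leadingCoeff)) ^ e * E h = 0 := by
    intro n
    induction n with
    | zero => intro h hn; omega
    | succ n ih =>
      intro h hn hh
      by_cases hd : h.natDegree < g.natDegree
      · exact ⟨0, by rw [hmin h hh hd, mul_zero]⟩
      rw [not_lt] at hd
      have h1 := hP h hh g.leadingCoeff h.leadingCoeff (h.natDegree - g.natDegree)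
      have h2 : (C g.leadingCoeff * h - C h.leadingCoeff * X ^ (h.natDegree - g.natDegree) * g).natDegree < n := by
        refine lt_of_le_of_lt (natDegree_le_iff_coeff_eq_zero.2 (fun i hi => ?_))
          (show h.natDegree - 1 < n by omega)
        have h3 : (C h.leadingCoeff * X ^ (h.natDegree - g.natDegree) * g).coeff i =
            h.leadingCoeff * g.coeff (i - (h.natDegree - g.natDegree)) := by
          rw [mul_assoc, coeff_C_mul, coeff_X_pow_mul', if_pos (by omega)]
        rw [coeff_sub, h3, coeff_C_mul]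
        by_cases h4 : i = h.natDegree
        · have h5 : i - (h.natDegree - g.natDegree) = g.natDegree := by omega
          rw [h5, h4]
          show g.leadingCoeff * h.leadingCoeff - h.leadingCoeff * g.leadingCoeff = 0
          ring
        · rw [coeff_eq_zero_of_natDegree_lt (show h.natDegree < i by omega),
            coeff_eq_zero_of_natDegree_lt (show g.natDegree < i - (h.natDegree - g.natDegree) by omega)]
          ring
      obtain ⟨e, he⟩ := ih _ h2 h1
      refine ⟨e + 1, ?_⟩
      rw [map_sub, map_mul, map_mul, hg, mul_zero, sub_zero] at he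
      rw [pow_succ, mul_assoc]
      exact he
  exact key _ h (Nat.lt_succ_self _) hh

end

section

variable {σ K L : Type} [Field K] [Field L] [Algebra L K]

theorem gd_of (v : K → ℤ) (z : σ → K) (hz : ∀ i, Ge v 0 (z i))
    (hk : ∀ a, ph z a = 0 → ∀ m, ((MvPolynomial.coeff m a : ℤ) : K) = 0)
    (hL : ∀ a : L, ∃ r s : MvPolynomial σ ℤ, ph z s ≠ 0 ∧ algebraMap L K a * ph z s = ph z r)
    (hL' : ∀ r, ∃ a : L, algebraMap L K a = ph z r) (θ : K) (hθ : Ge v 0 θ)
    (hsep : IsSeparable L θ) (S : Finset K) (hS : ∀ x ∈ S, ∃ q : L[X], aeval θ q = x) :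
    ∃ g b, GD v S σ z θ g b := by
  have hint : IsIntegral L θ := hsep.isIntegral
  obtain ⟨D, Q, hD, hQ⟩ := denz z hL (minpoly L θ)
  obtain ⟨g, hg, hgd⟩ := trunc z D Q _ hQ
  rw [natDegree_map] at hgd
  have hpos : 0 < (minpoly L θ).natDegree := minpoly.natDegree_pos hint
  have hco : ph z (g.coeff (minpoly L θ).natDegree) = ph z D := by
    rw [← coeff_map, hg, coeff_C_mul, coeff_map]
    have : (minpoly L θ).coeff (minpoly L θ).natDegree = 1 := minpoly.monic hint
    rw [this, map_one, mul_one]
  have hnd : g.natDegree = (minpoly L θ).natDegree := by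
    refine le_antisymm hgd (le_natDegree_of_ne_zero ?_)
    intro h
    rw [h, map_zero] at hco
    exact hD hco.symm
  have hlead : ph z g.leadingCoeff = ph z D := by
    rw [← hco, ← hnd]
    rfl
  refine ⟨g, g.leadingCoeff, ⟨hz, hθ, ?_, ?_, ?_, ?_, ?_⟩⟩
  · rw [e2_ph, hg, eval_mul, eval_map_algebraMap, minpoly.aeval, mul_zero]
  · rw [e2_ph, ← derivative_map, hg, derivative_C_mul, eval_mul, eval_C, derivative_map, eval_map_algebraMap]
    exact mul_ne_zero hD (hsep.aeval_derivative_ne_zero (minpoly.aeval _ _))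
  · rw [e2_C, hlead]
    exact hD
  · intro h hh R _ hR Z Θ hZ
    refine pseudo (e2 Z Θ) (fun h => e2 z θ h = 0) g (by omega) hZ ?_ ?_ h hh
    · intro h hh a b m
      rw [map_sub, map_mul, map_mul, hh, mul_zero, e2_ph z θ g, hg, eval_mul, eval_map_algebraMap, minpoly.aeval,
        mul_zero, mul_zero, sub_zero]
    · intro h hh hd
      -- all coefficients vanish
      have h1 : h.map (ph z) ∈ lifts (algebraMap L K) := by
        rw [lifts_iff_coeff_lifts]
        intro i
        rw [coeff_map]
        obtain ⟨a, ha⟩ := hL' (h.coeff i)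
        exact ⟨a, ha⟩
      rw [mem_lifts] at h1
      obtain ⟨q, hq⟩ := h1
      have h2 : aeval θ q = 0 := by
        rw [← eval_map_algebraMap, hq, ← e2_ph]
        exact hh
      have h3 : q = 0 := by
        by_contra h3
        have h4 := natDegree_le_natDegree (minpoly.degree_le_of_ne_zero L θ h3 h2)
        have h5 : q.natDegree = (h.map (ph z)).natDegree := by rw [← hq, natDegree_map]
        have h6 : (h.map (ph z)).natDegree ≤ h.natDegree := natDegree_map_le
        omega
      have h5 : ∀ i m, ((MvPolynomial.coeff m (h.coeff i) : ℤ) : K) = 0 := by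
        intro i m
        refine hk _ ?_ m
        rw [← coeff_map, ← hq, h3, Polynomial.map_zero, coeff_zero]
      have h6 : h.map (MvPolynomial.eval₂Hom (Int.castRingHom R) Z) = 0 := by
        ext i
        rw [coeff_map, coeff_zero]
        show MvPolynomial.eval₂ (Int.castRingHom R) Z (h.coeff i) = 0
        rw [MvPolynomial.eval₂_eq]
        refine Finset.sum_eq_zero fun m _ => ?_
        have := hR _ (h5 i m)
        rw [eq_intCast, this, zero_mul]
      show Polynomial.eval₂ _ Θ h = 0
      rw [← Polynomial.eval_map, h6, eval_zero]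
  · intro x hx
    obtain ⟨q, hq⟩ := hS x hx
    obtain ⟨D', Q', hD', hQ'⟩ := denz z hL q
    refine ⟨C D', Q', ?_, ?_⟩
    · rw [e2_C]
      exact hD'
    · rw [e2_C, e2_ph, hQ', eval_mul, eval_C, eval_map_algebraMap, hq, mul_comm]

end

end Pool.Agent.H73.GE
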