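import Pool.Agent.H73.GE.Gza
import Mathlib.FieldTheory.SeparablyGenerated
import Mathlib.FieldTheory.PrimitiveElement
import Mathlib.FieldTheory.Perfect

/-!
# H73 GE, Gzb: generators of a finitely generated subfield (GEN)
-/

set_option autoImplicit false

namespace Pool.Agent.H73.GE

open Polynomial IntermediateField Pool.Agent.H54.TT Pool.Agent.H98.RH

section

variable {K0 K : Type} [Field K0] [Field K] [Algebra K0 K]

/-- a transcendence basis of integral elements and an integral separable primitive element -/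
theorem genK [PerfectField K0] [Algebra.EssFiniteType K0 K] (v : K → ℤ) (hinv : ∀ x : K, x ≠ 0 → v x⁻¹ = - v x) :
    ∃ (σ : Type) (_ : Finite σ) (z : σ → K) (θ : K), (∀ i, Ge v 0 (z i)) ∧ Ge v 0 θ ∧
      AlgebraicIndependent K0 z ∧ IsSeparable (adjoin K0 (Set.range z)) θ ∧
      (adjoin K0 (Set.range z))⟮θ⟯ = ⊤ := by
  classical
  obtain ⟨s, hs, Hs⟩ := exists_isTranscendenceBasis_and_isSeparable_of_perfectField K0 K
  have hGe : ∀ x : K, ¬ Ge v 0 x → Ge v 0 x⁻¹ := by
    intro x h
    unfold Ge at h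
    push Not at h
    intro _
    rw [hinv _ h.1]
    linarith [h.2]
  let z : s → K := fun i => if Ge v 0 (i : K) then (i : K) else (i : K)⁻¹
  have hz : ∀ i, Ge v 0 (z i) := by
    intro i
    simp only [z]
    split_ifs with h
    · exact h
    · exact hGe _ h
  have hadj : adjoin K0 (Set.range z) = adjoin K0 (s : Set K) := by
    refine le_antisymm ?_ ?_
    · rw [adjoin_le_iff]
      rintro _ ⟨i, rfl⟩
      have h1 : (i : K) ∈ adjoin K0 (s : Set K) := subset_adjoin _ _ i.2
      simp only [z]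
      split_ifs
      · exact h1
      · exact inv_mem h1
    · rw [adjoin_le_iff]
      intro x hx
      have h1 : z ⟨x, hx⟩ ∈ adjoin K0 (Set.range z) := subset_adjoin _ _ ⟨_, rfl⟩
      simp only [z] at h1
      split_ifs at h1
      · exact h1
      · have := inv_mem h1
        rwa [inv_inv] at this
  have Hz : Algebra.IsSeparable (adjoin K0 (Set.range z)) K := by
    rw [hadj]
    exact Hs
  have halg : Algebra.IsAlgebraic (Algebra.adjoin K0 (Set.range z)) K := by
    rw [← isAlgebraic_adjoin_iff_top]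
    infer_instance
  have hzb : IsTranscendenceBasis K0 z :=
    Algebra.IsAlgebraic.isTranscendenceBasis_of_le_trdeg_of_finite K0 z (by rw [hs.cardinalMk_eq_trdeg])
  have hess : Algebra.EssFiniteType (adjoin K0 (Set.range z)) K := Algebra.EssFiniteType.of_comp K0 _ _
  have hfin : FiniteDimensional (adjoin K0 (Set.range z)) K := Algebra.finite_of_essFiniteType_of_isAlgebraic
  obtain ⟨t, ht⟩ := Field.exists_primitive_element (adjoin K0 (Set.range z)) K
  have h0 : ∃ t : K, Ge v 0 t ∧ (adjoin K0 (Set.range z))⟮t⟯ = ⊤ := by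
    by_cases h : Ge v 0 t
    · exact ⟨t, h, ht⟩
    · refine ⟨t⁻¹, hGe _ h, ?_⟩
      rw [eq_top_iff, ← ht, adjoin_simple_le_iff]
      have := inv_mem (mem_adjoin_simple_self (adjoin K0 (Set.range z)) t⁻¹)
      rwa [inv_inv] at this
  obtain ⟨θ, h1, h2⟩ := h0
  exact ⟨s, inferInstance, z, θ, hz, h1, hzb.1, Algebra.IsSeparable.isSeparable _ θ, h2⟩

/-- the data GD over a field which is finitely generated over a perfect field whose elements are quotients of integers -/
theorem gdK [PerfectField K0] [Algebra.EssFiniteType K0 K]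
    (hK0 : ∀ c : K0, ∃ m n : ℤ, (n : K0) ≠ 0 ∧ c * n = m) (v : K → ℤ)
    (hinv : ∀ x : K, x ≠ 0 → v x⁻¹ = - v x) (S : Finset K) :
    ∃ (σ : Type) (_ : Finite σ) (z : σ → K) (θ : K) (g : Polynomial (MvPolynomial σ ℤ)) (b : MvPolynomial σ ℤ),
      GD v S σ z θ g b := by
  obtain ⟨σ, hσ, z, θ, hz, hθ, hai, hsep, htop⟩ := genK (K0 := K0) v hinv
  have hzph : ∀ a : MvPolynomial σ ℤ, ph z a = MvPolynomial.aeval z (a.map (Int.castRingHom K0)) := by
    intro a
    rw [MvPolynomial.aeval_def, MvPolynomial.eval₂_map]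
    show MvPolynomial.eval₂ _ _ _ = _
    congr 1
    exact RingHom.ext_int _ _
  have hint : ∀ n : ℤ, ((n : K0) : K0) = 0 → ((n : ℤ) : K) = 0 := by
    intro n hn
    have := congrArg (algebraMap K0 K) hn
    rwa [map_intCast, map_zero] at this
  suffices hgd : ∃ g b, GD v S σ z θ g b by
    obtain ⟨g, b, h⟩ := hgd
    exact ⟨σ, hσ, z, θ, g, b, h⟩
  refine gd_of (L := adjoin K0 (Set.range z)) v z hz ?_ ?_ ?_ θ hθ hsep S ?_
  · intro a ha m
    rw [hzph] at ha
    have h1 : a.map (Int.castRingHom K0) = 0 := hai.eq_zero_of_aeval_eq_zero _ ha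
    have h2 := congrArg (MvPolynomial.coeff m) h1
    rw [MvPolynomial.coeff_map, MvPolynomial.coeff_zero] at h2
    exact hint _ h2
  · rintro ⟨a, ha⟩
    show ∃ r s : MvPolynomial σ ℤ, ph z s ≠ 0 ∧ a * ph z s = ph z r
    induction ha using adjoin_induction with
    | mem x hx =>
      obtain ⟨i, rfl⟩ := hx
      refine ⟨MvPolynomial.X i, 1, by rw [map_one]; exact one_ne_zero, ?_⟩
      rw [map_one, mul_one]
      exact (MvPolynomial.eval₂_X _ _ _).symm
    | algebraMap c =>
      obtain ⟨m, n, hn, hmn⟩ := hK0 c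
      refine ⟨(m : MvPolynomial σ ℤ), (n : MvPolynomial σ ℤ), ?_, ?_⟩
      · rw [map_intCast, ← map_intCast (algebraMap K0 K), map_ne_zero_iff _ (algebraMap K0 K).injective]
        exact hn
      · rw [map_intCast, map_intCast, ← map_intCast (algebraMap K0 K), ← map_mul, hmn, map_intCast]
    | add x y _ _ hx hy =>
      obtain ⟨r, s, h1, h2⟩ := hx
      obtain ⟨r', s', h1', h2'⟩ := hy
      refine ⟨r * s' + r' * s, s * s', by rw [map_mul]; exact mul_ne_zero h1 h1', ?_⟩
      rw [map_mul, map_add, map_mul, map_mul, ← h2, ← h2']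
      ring
    | inv x _ hx =>
      obtain ⟨r, s, h1, h2⟩ := hx
      by_cases h0 : x = 0
      · refine ⟨0, 1, by rw [map_one]; exact one_ne_zero, ?_⟩
        rw [h0, inv_zero, zero_mul, map_zero]
      · refine ⟨s, r, ?_, ?_⟩
        · rw [← h2]
          exact mul_ne_zero h0 h1
        · rw [← h2]
          field_simp
    | mul x y _ _ hx hy =>
      obtain ⟨r, s, h1, h2⟩ := hx
      obtain ⟨r', s', h1', h2'⟩ := hy
      refine ⟨r * r', s * s', by rw [map_mul]; exact mul_ne_zero h1 h1', ?_⟩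
      rw [map_mul, map_mul, ← h2, ← h2']
      ring
  · intro r
    refine ⟨⟨ph z r, ?_⟩, rfl⟩
    induction r using MvPolynomial.induction_on with
    | C n =>
      have : ph z (MvPolynomial.C n) = ((n : ℤ) : K) := by
        show MvPolynomial.eval₂ _ _ _ = _
        rw [MvPolynomial.eval₂_C]
        rfl
      rw [this]
      exact intCast_mem _ n
    | add p q hp hq =>
      rw [map_add]
      exact add_mem hp hq
    | mul_X p i hp =>
      rw [map_mul]
      refine mul_mem hp ?_
      have : ph z (MvPolynomial.X i) = z i := MvPolynomial.eval₂_X _ _ _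
      rw [this]
      exact subset_adjoin _ _ ⟨i, rfl⟩
  · intro x _
    have h1 : x ∈ (adjoin K0 (Set.range z))⟮θ⟯ := by rw [htop]; trivial
    rw [← mem_toSubalgebra, adjoin_simple_toSubalgebra_of_isAlgebraic hsep.isIntegral.isAlgebraic,
      Algebra.adjoin_singleton_eq_range_aeval] at h1
    obtain ⟨q, hq⟩ := h1
    exact ⟨q, hq⟩

end

/-- transfer to a larger field -/
theorem gd_map {K F : Type} [Field K] [Field F] (φ : K →+* F) (v : F → ℤ) (S : Finset F) (S' : Finset K)
    (hS : ∀ x ∈ S, ∃ y ∈ S', φ y = x) {σ : Type} {z : σ → K} {θ : K} {g : (MvPolynomial σ ℤ)[X]}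
    {b : MvPolynomial σ ℤ} (h : GD (fun x => v (φ x)) S' σ z θ g b) :
    GD v S σ (fun i => φ (z i)) (φ θ) g b := by
  have h0 : ∀ q, e2 z θ q ≠ 0 → e2 (fun i => φ (z i)) (φ θ) q ≠ 0 := by
    intro q hq
    rw [← e2_map]
    exact (_root_.map_ne_zero φ).2 hq
  refine ⟨?_, ?_, ?_, h0 _ h.der, h0 _ h.lead, ?_, ?_⟩
  · intro i hi
    exact h.zi i (fun h1 => hi (by rw [h1, map_zero]))
  · intro hi
    exact h.ti (fun h1 => hi (by rw [h1, map_zero]))
  · rw [← e2_map, h.root, map_zero]
  · intro q hq R _ hR Z Θ hZ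
    refine h.ker q ?_ R ?_ Z Θ hZ
    · rw [← e2_map] at hq
      exact (map_eq_zero φ).1 hq
    · intro n hn
      refine hR n ?_
      rw [← map_intCast φ, hn, map_zero]
  · intro x hx
    obtain ⟨y, hy, rfl⟩ := hS x hx
    obtain ⟨c, a, h1, h2⟩ := h.frac y hy
    refine ⟨c, a, h0 _ h1, ?_⟩
    rw [← e2_map, ← e2_map, ← map_mul, h2]

/-- the data GD over a field which contains a perfect field whose elements are quotients of integers -/
theorem gdF {K0 F : Type} [Field K0] [Field F] [Algebra K0 F] [PerfectField K0]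
    (hK0 : ∀ c : K0, ∃ m n : ℤ, (n : K0) ≠ 0 ∧ c * n = m) (v : F → ℤ)
    (hinv : ∀ x : F, x ≠ 0 → v x⁻¹ = - v x) (S : Finset F) :
    ∃ (σ : Type) (_ : Finite σ) (z : σ → F) (θ : F) (g : Polynomial (MvPolynomial σ ℤ)) (b : MvPolynomial σ ℤ),
      GD v S σ z θ g b := by
  classical
  let K : IntermediateField K0 F := adjoin K0 (S : Set F)
  have hK : Algebra.EssFiniteType K0 K := by
    rw [essFiniteType_iff]
    exact ⟨S, rfl⟩
  have hSK : ∀ x ∈ S, x ∈ K := fun x hx => subset_adjoin _ _ (Finset.mem_coe.2 hx)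
  let S' : Finset K := S.attach.image fun x => ⟨x.1, hSK x.1 x.2⟩
  obtain ⟨σ, hσ, z, θ, g, b, h⟩ := gdK (K0 := K0) (K := K) hK0 (fun x => v (algebraMap K F x)) (by
    intro x hx
    show v (algebraMap K F x⁻¹) = - v (algebraMap K F x)
    rw [map_inv₀]
    exact hinv _ ((_root_.map_ne_zero _).2 hx)) S'
  refine ⟨σ, hσ, _, _, g, b, gd_map (algebraMap K F) v S S' ?_ h⟩
  intro x hx
  exact ⟨⟨x, hSK x hx⟩, Finset.mem_image.2 ⟨⟨x, hx⟩, Finset.mem_attach _ _, rfl⟩, rfl⟩

/-- GEN -/
theorem exists_gen {F : Type} [Field F] {v : F → ℤ} (hv : IsDV v) (S : Finset F) :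
    ∃ (σ : Type) (_ : Finite σ) (z : σ → F) (θ : F) (g : Polynomial (MvPolynomial σ ℤ)) (b : MvPolynomial σ ℤ),
      GD v S σ z θ g b := by
  have hinv : ∀ x : F, x ≠ 0 → v x⁻¹ = - v x := fun x hx => hv.inv hx
  obtain h0 | ⟨p, hp, hpF⟩ := CharP.exists' F
  · refine gdF (K0 := ℚ) ?_ v hinv S
    intro c
    refine ⟨c.num, c.den, ?_, ?_⟩
    · exact_mod_cast c.den_ne_zero
    · exact_mod_cast Rat.mul_den_eq_num c
  · let _ : Algebra (ZMod p) F := ZMod.algebra F p
    refine gdF (K0 := ZMod p) ?_ v hinv S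
    intro c
    refine ⟨(c.val : ℤ), 1, ?_, ?_⟩
    · rw [Int.cast_one]
      exact one_ne_zero
    · rw [Int.cast_one, mul_one, Int.cast_natCast, ZMod.natCast_zmod_val]

end Pool.Agent.H73.GE
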